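import Pool.Agent.N496.LT.Stm2
import Pool.Agent.W907.SG.All
import Pool.Agent.R781.VS.VDel
import Pool.Agent.W338.SG.ADD

/-!
# Project LT (helper636), piece P2G: the midpoints of the subdivided edges do not contribute
-/

set_option autoImplicit false

namespace Run7.h642.LT.P2G

open Module Pool.Agent.W907.SG Pool.Agent.N496.LT
open Pool.Agent.W461.SGN (liftable simple_mul_self simple_comm)

/-! ### `s t` has infinite order -/

section Order

variable {V : Type} [DecidableEq V]

/-- the action of the generators on the integers through the infinite dihedral group -/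
def dih (s t v : V) : Equiv.Perm ℤ :=
  if v = s then Equiv.neg ℤ else if v = t then (Equiv.neg ℤ).trans (Equiv.addLeft 1) else 1

theorem dih_mul_self (s t v : V) : dih s t v * dih s t v = 1 := by
  unfold dih
  split_ifs
  · ext x; simp
  · ext x; simp
  · simp

/-- the homomorphism to the permutations of the integers -/
noncomputable def dihHom (G : SimpleGraph V) (s t : V) (hst : ¬ G.Adj s t) : W G →* Equiv.Perm ℤ :=
  (cox G).toCoxeterSystem.lift ⟨dih s t, liftable G _ (dih_mul_self s t) (fun u v huv => by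
    have hne := huv.ne
    by_cases h1 : u = s
    · by_cases h2 : v = t
      · exact absurd (h1 ▸ h2 ▸ huv) hst
      · have : dih s t v = 1 := by
          unfold dih
          rw [if_neg (fun h => hne (h1.trans h.symm)), if_neg h2]
        rw [this, mul_one, one_mul]
    · by_cases h2 : u = t
      · by_cases h3 : v = s
        · exact absurd (h2 ▸ h3 ▸ huv.symm) hst
        · have : dih s t v = 1 := by
            unfold dih
            rw [if_neg h3, if_neg (fun h => hne (h2.trans h.symm))]
          rw [this, mul_one, one_mul]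
      · have : dih s t u = 1 := by
          unfold dih
          rw [if_neg h1, if_neg h2]
        rw [this, mul_one, one_mul])⟩

theorem st_pow_ne (G : SimpleGraph V) (s t : V) (hne : s ≠ t) (hst : ¬ G.Adj s t) (k : ℕ) (hk : 1 ≤ k) :
    ((cox G).simple s * (cox G).simple t) ^ k ≠ 1 := by
  intro h
  have h1 := congrArg (dihHom G s t hst) h
  have hs : dihHom G s t hst ((cox G).simple s) = dih s t s := CoxeterSystem.lift_apply_simple _ _ s
  have ht : dihHom G s t hst ((cox G).simple t) = dih s t t := CoxeterSystem.lift_apply_simple _ _ t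
  rw [map_pow, map_mul, map_one, hs, ht] at h1
  have h2 : ∀ x : ℤ, (dih s t s * dih s t t) x = x - 1 := by
    intro x
    unfold dih
    rw [if_pos rfl, if_neg hne.symm, if_pos rfl]
    simp only [Equiv.Perm.mul_apply, Equiv.trans_apply, Equiv.neg_apply, Equiv.coe_addLeft]
    ring
  have h3 : ∀ (k : ℕ) (x : ℤ), ((dih s t s * dih s t t) ^ k) x = x - k := by
    intro k
    induction k with
    | zero => intro x; simp
    | succ k ih =>
      intro x
      rw [pow_succ, Equiv.Perm.mul_apply, h2, ih]
      push_cast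
      ring
  have h4 := h3 k 0
  rw [h1] at h4
  simp at h4
  omega

end Order

/-! ### the orbits of `⟨s, t⟩` -/

section Orb

variable {Y : Type} (f g : Y → Y)

/-- the equivalence relation generated by `y ~ f y`, `y ~ g y` -/
def stp (y z : Y) : Prop := z = f y ∨ z = g y

/-- orbits -/
def Orb : Type := Quotient (Relation.EqvGen.setoid (stp f g))

theorem eqv_f (y : Y) : Relation.EqvGen (stp f g) y (f y) := Relation.EqvGen.rel _ _ (Or.inl rfl)
theorem eqv_g (y : Y) : Relation.EqvGen (stp f g) y (g y) := Relation.EqvGen.rel _ _ (Or.inr rfl)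

theorem out_eqv (y : Y) : Relation.EqvGen (stp f g)
    (Quotient.out (Quotient.mk (Relation.EqvGen.setoid (stp f g)) y)) y := by
  have h := Quotient.exact (Quotient.out_eq (Quotient.mk (Relation.EqvGen.setoid (stp f g)) y))
  exact h

theorem eqv_ind {P : Y → Prop} (hf : ∀ y, P y ↔ P (f y)) (hg : ∀ y, P y ↔ P (g y)) {y z : Y}
    (h : Relation.EqvGen (stp f g) y z) : P y ↔ P z := by
  induction h with
  | rel x y h =>
    rcases h with h | h
    · rw [h]; exact hf x
    · rw [h]; exact hg x
  | refl x => exact Iff.rfl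
  | symm x y _ ih => exact ih.symm
  | trans x y z _ _ ih1 ih2 => exact ih1.trans ih2

theorem orb_card [Fintype Y] [Fintype (Orb f g)] (N : ℕ) (e : Y → ℕ → Y) (he0 : ∀ y, e y 0 = y)
    (he : ∀ y k, e y (k + 1) = g (f (e y k)))
    (hinj : ∀ y j k, j ≤ N → k ≤ N → e y j = e y k → j = k) :
    (N + 1) * Fintype.card (Orb f g) ≤ Fintype.card Y := by
  classical
  have hmk : ∀ y k, (Quotient.mk (Relation.EqvGen.setoid (stp f g)) (e y k) : Orb f g) =
      Quotient.mk (Relation.EqvGen.setoid (stp f g)) y := by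
    intro y k
    induction k with
    | zero => rw [he0]
    | succ k ih =>
      rw [he, ← ih]
      refine Quotient.sound ?_
      exact Relation.EqvGen.symm _ _ (Relation.EqvGen.trans _ _ _ (eqv_f f g _) (eqv_g f g _))
  let φ : Fin (N + 1) × Orb f g → Y := fun x => e x.2.out x.1
  have hφ : Function.Injective φ := by
    rintro ⟨j, o⟩ ⟨k, o'⟩ h
    have h1 : e o.out j = e o'.out k := h
    have h2 : o = o' := by
      have h3 := hmk o.out j
      rw [h1, hmk] at h3
      have h4 : (Quotient.mk (Relation.EqvGen.setoid (stp f g)) o.out : Orb f g) = o := Quotient.out_eq o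
      have h5 : (Quotient.mk (Relation.EqvGen.setoid (stp f g)) o'.out : Orb f g) = o' := Quotient.out_eq o'
      rw [h4, h5] at h3
      exact h3.symm
    subst h2
    have h3 := hinj _ _ _ (Nat.lt_succ_iff.1 j.2) (Nat.lt_succ_iff.1 k.2) h1
    rw [Prod.mk.injEq]
    exact ⟨Fin.ext h3, rfl⟩
  have h := Fintype.card_le_of_injective φ hφ
  rwa [Fintype.card_prod, Fintype.card_fin] at h

end Orb

/-! ### the bound for the links of the midpoints -/

theorem sub_quot {V F M : Type} [Fintype V] [LinearOrder V] [Field F]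
    [AddCommGroup M] [Module F M] [FiniteDimensional F M] (G : SimpleGraph V)
    (ρ : V → M →ₗ[F] M) (h2 : (2 : F) ≠ 0) (hinv : ∀ v m, ρ v (ρ v m) = m)
    (hcomm : ∀ u v, G.Adj u v → ∀ m, ρ u (ρ v m) = ρ v (ρ u m)) (K : Submodule F M)
    (hK : ∀ v, ∀ m ∈ K, ρ v m ∈ K) (i : ℕ) :
    beta G ρ Set.univ ∅ i ≤ beta G (fun v => (ρ v).restrict (hK v)) Set.univ ∅ i +
      beta G (fun v => K.mapQ K (ρ v) (hK v)) Set.univ ∅ i := by
  apply Pool.Agent.W907.SG.sub V F K M (M ⧸ K) G (fun v => (ρ v).restrict (hK v)) ρ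
    (fun v => K.mapQ K (ρ v) (hK v)) K.subtype K.mkQ h2 hinv hcomm
  · intro v m
    rfl
  · intro v m
    rfl
  · exact Submodule.injective_subtype K
  · exact Submodule.mkQ_surjective K
  · rw [Submodule.range_subtype, Submodule.ker_mkQ]

/-- the Betti numbers of a suspension, for a general representation: they are bounded by the dimensions of
`M^{-s} ∩ M^{-t}` and `M / (M^{-s} + M^{-t})` -/
theorem susp_bound {V F M : Type} [Fintype V] [LinearOrder V] [Field F]
    [AddCommGroup M] [Module F M] [FiniteDimensional F M] (G : SimpleGraph V)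
    (ρ : V → M →ₗ[F] M) (h2 : (2 : F) ≠ 0) (hinv : ∀ v m, ρ v (ρ v m) = m)
    (hcomm : ∀ u v, G.Adj u v → ∀ m, ρ u (ρ v m) = ρ v (ρ u m)) (s t : V) (hst : s ≠ t)
    (hnadj : ¬ G.Adj s t) (hadj : ∀ u, u ≠ s → u ≠ t → G.Adj u s ∧ G.Adj u t) (n : ℕ)
    (hE0 : finrank F ↥(LinearMap.ker (ρ s + LinearMap.id) ⊓ LinearMap.ker (ρ t + LinearMap.id)) ≤ n)
    (hQ0 : finrank F (M ⧸ (LinearMap.ker (ρ s + LinearMap.id) ⊔ LinearMap.ker (ρ t + LinearMap.id))) ≤ n)
    (i : ℕ) : beta G ρ Set.univ ∅ i ≤ 2 ^ (Fintype.card V + 1) * n := by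
  have hsu : ∀ u, u ≠ s → u ≠ t → ∀ m, ρ u (ρ s m) = ρ s (ρ u m) ∧ ρ u (ρ t m) = ρ t (ρ u m) :=
    fun u h1 h3 m => ⟨hcomm u s (hadj u h1 h3).1 m, hcomm u t (hadj u h1 h3).2 m⟩
  -- the submodule `N0`
  let N0 : Submodule F M :=
    LinearMap.ker (ρ s + LinearMap.id) ⊔ LinearMap.ker (ρ t + LinearMap.id)
  have hker : ∀ v m, m ∈ LinearMap.ker (ρ v + LinearMap.id) ↔ ρ v m = -m := by
    intro v m
    rw [LinearMap.mem_ker, LinearMap.add_apply, LinearMap.id_apply]
    exact ⟨fun h => eq_neg_of_add_eq_zero_left h, fun h => by rw [h, neg_add_cancel]⟩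
  have hN0 : ∀ m, m ∈ N0 ↔ ∃ x y, m = x + y ∧ ρ s x = -x ∧ ρ t y = -y := by
    intro m
    rw [Submodule.mem_sup]
    constructor
    · rintro ⟨x, hx, y, hy, rfl⟩
      exact ⟨x, y, rfl, (hker s x).mp hx, (hker t y).mp hy⟩
    · rintro ⟨x, y, rfl, hx, hy⟩
      exact ⟨x, (hker s x).mpr hx, y, (hker t y).mpr hy, rfl⟩
  have hN0inv : ∀ v, ∀ m ∈ N0, ρ v m ∈ N0 := by
    intro v m hm
    obtain ⟨x, y, rfl, hx, hy⟩ := (hN0 m).mp hm
    by_cases h1 : v = s
    · rw [h1]
      rw [hN0]
      refine ⟨-x - (y - ρ s y), y, ?_, ?_, hy⟩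
      · rw [map_add, hx]
        abel
      · rw [map_sub, map_neg, map_sub, hinv, hx]
        abel
    · by_cases h3 : v = t
      · rw [h3, hN0]
        refine ⟨x, -y - (x - ρ t x), ?_, hx, ?_⟩
        · rw [map_add, hy]
          abel
        · rw [map_sub, map_neg, map_sub, hinv, hy]
          abel
      · rw [hN0]
        refine ⟨ρ v x, ρ v y, map_add _ _ _, ?_, ?_⟩
        · rw [← (hsu v h1 h3 x).1, hx, map_neg]
        · rw [← (hsu v h1 h3 y).2, hy, map_neg]
  -- first sequence
  have B1 := sub_quot G ρ h2 hinv hcomm N0 hN0inv i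
  -- second sequence
  set σ : V → N0 →ₗ[F] N0 := fun v => (ρ v).restrict (hN0inv v) with hσ
  have hσv : ∀ v (m : N0), ((σ v m : N0) : M) = ρ v m := fun _ _ => rfl
  have hσinv : ∀ v m, σ v (σ v m) = m := fun v m => Subtype.ext (by rw [hσv, hσv, hinv])
  have hσcomm : ∀ u v, G.Adj u v → ∀ m, σ u (σ v m) = σ v (σ u m) := fun u v huv m =>
    Subtype.ext (by rw [hσv, hσv, hσv, hσv, hcomm u v huv])
  let E : Submodule F N0 :=
    LinearMap.ker (σ s + LinearMap.id) ⊓ LinearMap.ker (σ t + LinearMap.id)
  have hkerσ : ∀ v m, m ∈ LinearMap.ker (σ v + LinearMap.id) ↔ σ v m = -m := by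
    intro v m
    rw [LinearMap.mem_ker, LinearMap.add_apply, LinearMap.id_apply]
    exact ⟨fun h => eq_neg_of_add_eq_zero_left h, fun h => by rw [h, neg_add_cancel]⟩
  have hE : ∀ m, m ∈ E ↔ σ s m = -m ∧ σ t m = -m := by
    intro m
    rw [Submodule.mem_inf, hkerσ, hkerσ]
  have hEinv : ∀ v, ∀ m ∈ E, σ v m ∈ E := by
    intro v m hm
    obtain ⟨h3, h4⟩ := (hE m).mp hm
    by_cases h1 : v = s
    · rw [h1, h3]
      exact E.neg_mem hm
    · by_cases h5 : v = t
      · rw [h5, h4]
        exact E.neg_mem hm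
      · rw [hE]
        have c1 := hσcomm v s (hadj v h1 h5).1 m
        have c2 := hσcomm v t (hadj v h1 h5).2 m
        exact ⟨by rw [← c1, h3, map_neg], by rw [← c2, h4, map_neg]⟩
  have B2 := sub_quot G σ h2 hσinv hσcomm E hEinv i
  -- the quotient is acyclic
  have B3 : beta G (fun v => E.mapQ E (σ v) (hEinv v)) Set.univ ∅ i = 0 := by
    apply acyc V F (N0 ⧸ E) G (fun v => E.mapQ E (σ v) (hEinv v)) s t hst hnadj hadj
    · intro u v huv m
      obtain ⟨m, rfl⟩ := Submodule.mkQ_surjective E m
      simp only [Submodule.mkQ_apply, Submodule.mapQ_apply]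
      rw [hσcomm u v huv]
    · intro m
      obtain ⟨m, rfl⟩ := Submodule.mkQ_surjective E m
      obtain ⟨x, y, hxy, hx, hy⟩ := (hN0 m).mp m.2
      have hx0 : x ∈ N0 := (hN0 x).mpr ⟨x, 0, by simp, hx, by simp⟩
      have hy0 : y ∈ N0 := (hN0 y).mpr ⟨0, y, by simp, by simp, hy⟩
      refine ⟨E.mkQ ⟨x, hx0⟩, E.mkQ ⟨y, hy0⟩, ?_, ?_, ?_⟩
      · rw [← map_add]
        congr 1
        exact Subtype.ext hxy
      · simp only [Submodule.mkQ_apply, Submodule.mapQ_apply]
        rw [← Submodule.Quotient.mk_neg]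
        congr 1
        exact Subtype.ext hx
      · simp only [Submodule.mkQ_apply, Submodule.mapQ_apply]
        rw [← Submodule.Quotient.mk_neg]
        congr 1
        exact Subtype.ext hy
    · intro m
      obtain ⟨m, rfl⟩ := Submodule.mkQ_surjective E m
      simp only [Submodule.mkQ_apply, Submodule.mapQ_apply]
      intro h3 h4
      have key : ∀ v, (v = s ∨ v = t) →
          (Submodule.Quotient.mk (σ v m) : N0 ⧸ E) = -Submodule.Quotient.mk m → σ v m = -m := by
        intro v hv h5
        have h6 : σ v m + m ∈ E := by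
          rw [← Submodule.Quotient.mk_eq_zero, Submodule.Quotient.mk_add, h5, neg_add_cancel]
        have h7 : σ v (σ v m + m) = -(σ v m + m) := by
          rcases hv with rfl | rfl
          · exact ((hE _).mp h6).1
          · exact ((hE _).mp h6).2
        have h8 : σ v (σ v m + m) = σ v m + m := by
          rw [map_add, hσinv]
          abel
        have h9 : (2 : F) • (σ v m + m) = 0 := by
          rw [two_smul]
          nth_rewrite 1 [← h8]
          rw [h7, neg_add_cancel]
        have h10 := (smul_eq_zero.mp h9).resolve_left h2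
        exact eq_neg_of_add_eq_zero_left h10
      rw [Submodule.Quotient.mk_eq_zero, hE]
      exact ⟨key s (Or.inl rfl) h3, key t (Or.inr rfl) h4⟩
  -- dimensions
  have D1 : finrank F E ≤ n := by
    refine le_trans ?_ hE0
    let R : E →ₗ[F] ↥(LinearMap.ker (ρ s + LinearMap.id) ⊓ LinearMap.ker (ρ t + LinearMap.id)) :=
      { toFun := fun m => ⟨((m : N0) : M), by
          rw [Submodule.mem_inf, hker, hker]
          obtain ⟨h3, h4⟩ := (hE (m : N0)).mp m.2
          exact ⟨congrArg Subtype.val h3, congrArg Subtype.val h4⟩⟩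
        map_add' := fun _ _ => rfl
        map_smul' := fun _ _ => rfl }
    have hR : Function.Injective R := by
      intro x y h
      apply Subtype.ext
      apply Subtype.ext
      exact congrArg (fun z : ↥(LinearMap.ker (ρ s + LinearMap.id) ⊓ LinearMap.ker (ρ t + LinearMap.id)) => (z : M)) h
    exact LinearMap.finrank_le_finrank_of_injective hR
  have B4 := dim V F E G (fun v => (σ v).restrict (hEinv v)) Set.univ ∅ i
  have B5 := dim V F (M ⧸ N0) G (fun v => N0.mapQ N0 (ρ v) (hN0inv v)) Set.univ ∅ i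
  have h3 : 2 ^ Fintype.card V * finrank F E ≤ 2 ^ Fintype.card V * n := Nat.mul_le_mul_left _ D1
  have h4 : 2 ^ Fintype.card V * finrank F (M ⧸ N0) ≤ 2 ^ Fintype.card V * n :=
    Nat.mul_le_mul_left _ hQ0
  have h5 : 2 ^ (Fintype.card V + 1) * n = 2 ^ Fintype.card V * n + 2 ^ Fintype.card V * n := by
    rw [pow_succ]
    ring
  omega

/-- dimensions for a permutation representation -/
theorem inf_bound {F V Y : Type} [Field F] [Fintype Y] (a : V → Y → Y) (s t : V)
    [Fintype (Orb (a s) (a t))] :
    finrank F ↥(LinearMap.ker (pull F a s + LinearMap.id) ⊓ LinearMap.ker (pull F a t + LinearMap.id)) ≤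
      Fintype.card (Orb (a s) (a t)) := by
  let R : ↥(LinearMap.ker (pull F a s + LinearMap.id) ⊓ LinearMap.ker (pull F a t + LinearMap.id)) →ₗ[F]
      (Orb (a s) (a t) → F) :=
    { toFun := fun m o => (m : Y → F) o.out
      map_add' := fun _ _ => rfl
      map_smul' := fun _ _ => rfl }
  have hR : Function.Injective R := by
    rw [injective_iff_map_eq_zero]
    intro m hm
    obtain ⟨h1, h2⟩ := Submodule.mem_inf.1 m.2
    have h1' : ∀ y, (m : Y → F) (a s y) + (m : Y → F) y = 0 := fun y => congrFun (LinearMap.mem_ker.1 h1) y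
    have h2' : ∀ y, (m : Y → F) (a t y) + (m : Y → F) y = 0 := fun y => congrFun (LinearMap.mem_ker.1 h2) y
    apply Subtype.ext
    funext y
    have h3 := out_eqv (a s) (a t) y
    have h4 := eqv_ind (a s) (a t) (P := fun y => (m : Y → F) y = 0)
      (fun y => ⟨fun h => by have := h1' y; rwa [h, add_zero] at this,
        fun h => by have := h1' y; rwa [h, zero_add] at this⟩)
      (fun y => ⟨fun h => by have := h2' y; rwa [h, add_zero] at this,
        fun h => by have := h2' y; rwa [h, zero_add] at this⟩) h3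
    refine h4.1 ?_
    exact congrFun hm (Quotient.mk (Relation.EqvGen.setoid (stp (a s) (a t))) y)
  have h3 := LinearMap.finrank_le_finrank_of_injective hR
  rwa [Module.finrank_fintype_fun_eq_card] at h3

theorem quot_bound {F V Y : Type} [Field F] [Fintype Y] (a : V → Y → Y) (hinv : ∀ v x, a v (a v x) = x) (s t : V)
    [Fintype (Orb (a s) (a t))] :
    finrank F ((Y → F) ⧸ (LinearMap.ker (pull F a s + LinearMap.id) ⊔ LinearMap.ker (pull F a t + LinearMap.id))) ≤
      Fintype.card (Orb (a s) (a t)) := by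
  classical
  set N0 : Submodule F (Y → F) :=
    LinearMap.ker (pull F a s + LinearMap.id) ⊔ LinearMap.ker (pull F a t + LinearMap.id) with hN0
  have hmk : ∀ v y, (v = s ∨ v = t) →
      N0.mkQ (Pi.single (a v y) 1) = N0.mkQ (Pi.single y 1) := by
    intro v y hv
    rw [Submodule.mkQ_apply, Submodule.mkQ_apply, Submodule.Quotient.eq]
    have h3 : ∀ z, pull F a v (Pi.single z 1) = Pi.single (a v z) 1 := by
      intro z
      funext x
      rw [pull_apply]
      by_cases h4 : x = a v z
      · rw [h4, hinv]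
        simp
      · rw [Pi.single_eq_of_ne h4, Pi.single_eq_of_ne]
        intro h5
        apply h4
        rw [← h5, hinv]
    have h4 : ((Pi.single (a v y) 1 : Y → F) - Pi.single y 1) ∈ LinearMap.ker (pull F a v + LinearMap.id) := by
      rw [LinearMap.mem_ker, LinearMap.add_apply, LinearMap.id_apply, map_sub, h3, h3, hinv]
      abel
    rcases hv with rfl | rfl
    · exact Submodule.mem_sup_left h4
    · exact Submodule.mem_sup_right h4
  let T : (Orb (a s) (a t) → F) →ₗ[F] ((Y → F) ⧸ N0) :=
    { toFun := fun c => ∑ o, c o • N0.mkQ (Pi.single o.out 1)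
      map_add' := fun c d => by simp only [Pi.add_apply, add_smul, Finset.sum_add_distrib]
      map_smul' := fun c d => by
        simp only [Pi.smul_apply, smul_assoc, RingHom.id_apply, Finset.smul_sum] }
  have hTs : ∀ o, T (Pi.single o 1) = N0.mkQ (Pi.single o.out 1) := by
    intro o
    change ∑ o', (Pi.single o 1 : Orb (a s) (a t) → F) o' • N0.mkQ (Pi.single o'.out 1) = _
    rw [Finset.sum_eq_single o]
    · rw [Pi.single_eq_same, one_smul]
    · intro b _ hb
      rw [Pi.single_eq_of_ne hb, zero_smul]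
    · intro h
      exact absurd (Finset.mem_univ o) h
  have hP : ∀ y, N0.mkQ (Pi.single y 1) ∈ LinearMap.range T := by
    intro y
    have h3 := out_eqv (a s) (a t) y
    refine (eqv_ind (a s) (a t) (P := fun y => N0.mkQ (Pi.single y 1) ∈ LinearMap.range T)
      (fun y => by rw [hmk s y (Or.inl rfl)]) (fun y => by rw [hmk t y (Or.inr rfl)]) h3).1 ?_
    exact ⟨Pi.single (Quotient.mk (Relation.EqvGen.setoid (stp (a s) (a t))) y) 1, hTs _⟩
  have hsurj : Function.Surjective T := by
    rw [← LinearMap.range_eq_top, eq_top_iff]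
    intro m _
    obtain ⟨g, rfl⟩ := Submodule.mkQ_surjective N0 m
    have h3 : g = ∑ z, g z • (Pi.single z 1 : Y → F) := by
      funext y
      rw [Finset.sum_apply, Finset.sum_eq_single y]
      · simp
      · intro b _ hb
        simp [Pi.single_eq_of_ne (Ne.symm hb)]
      · intro h
        exact absurd (Finset.mem_univ y) h
    rw [h3, map_sum]
    apply Submodule.sum_mem
    intro z _
    rw [map_smul]
    exact Submodule.smul_mem _ _ (hP z)
  have h3 := LinearMap.finrank_le_finrank_of_surjective hsurj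
  rwa [Module.finrank_fintype_fun_eq_card] at h3

/-- the bound for the link of a midpoint -/
theorem link_bound {V F : Type} [Fintype V] [LinearOrder V] [Field F] (h2 : (2 : F) ≠ 0) (G : SimpleGraph V)
    (N : ℕ) (E : Finset (W G)) {Y : Type} [Fintype Y] (P : FSet G E Y) (L : Set V) (s t : V) (hs : s ∈ L) (ht : t ∈ L)
    (hst : s ≠ t) (hnadj : ¬ G.Adj s t) (hadj : ∀ u ∈ L, u ≠ s → u ≠ t → G.Adj u s ∧ G.Adj u t)
    (hE : ∀ k, 1 ≤ k → k ≤ N → ((cox G).simple s * (cox G).simple t) ^ k ∈ E) (i : ℕ) :
    (N + 1) * beta G (pull F P.a) L ∅ i ≤ 2 ^ (Fintype.card V + 1) * Fintype.card Y := by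
  classical
  have : Fintype (Orb (P.a s) (P.a t)) := Fintype.ofSurjective
    (Quotient.mk (Relation.EqvGen.setoid (stp (P.a s) (P.a t)))) Quotient.mk_surjective
  have hO : (N + 1) * Fintype.card (Orb (P.a s) (P.a t)) ≤ Fintype.card Y := by
    refine orb_card (P.a s) (P.a t) N (fun y k => P.ev y (((cox G).simple s * (cox G).simple t) ^ k)) ?_ ?_ ?_
    · intro y
      show P.ev y (((cox G).simple s * (cox G).simple t) ^ 0) = y
      rw [pow_zero, P.ev_one]
    · intro y k
      show P.ev y (((cox G).simple s * (cox G).simple t) ^ (k + 1)) = P.a t (P.a s (P.ev y (((cox G).simple s * (cox G).simple t) ^ k)))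
      rw [pow_succ, P.ev_mul, P.ev_mul, P.ev_simple, P.ev_simple]
    · have key : ∀ y j k, j < k → k ≤ N →
          P.ev y (((cox G).simple s * (cox G).simple t) ^ j) ≠ P.ev y (((cox G).simple s * (cox G).simple t) ^ k) := by
        intro y j k hjk hk h
        have h1 : P.ev (P.ev y (((cox G).simple s * (cox G).simple t) ^ j))
            (((cox G).simple s * (cox G).simple t) ^ (k - j)) =
            P.ev y (((cox G).simple s * (cox G).simple t) ^ j) := by
          rw [← P.ev_mul, ← pow_add, Nat.add_sub_cancel' hjk.le, ← h]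
        exact P.free _ (hE (k - j) (by omega) (by omega)) _ h1
      intro y j k hj hk h
      rcases lt_trichotomy j k with h1 | h1 | h1
      · exact absurd h (key y j k h1 hk)
      · exact h1
      · exact absurd h.symm (key y k j h1 hj)
  have h3 := tr L V F (Y → F) G (G.induce L) (pull F P.a) (fun u => (u : V))
      (Subtype.strictMono_coe _) (fun u u' => Iff.rfl) i
  rw [Subtype.range_coe] at h3
  rw [h3]
  have h4 := susp_bound (G.induce L) (fun u : L => pull F P.a (u : V)) h2
    (fun v m => by funext x; rw [pull_apply, pull_apply, P.inv])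
    (fun u v huv m => by
      funext x
      rw [pull_apply, pull_apply, pull_apply, pull_apply, P.comm v u huv.symm])
    ⟨s, hs⟩ ⟨t, ht⟩ (fun h => hst (congrArg Subtype.val h)) hnadj
    (fun u h1 h3 => hadj u u.2 (fun h => h1 (Subtype.ext h)) (fun h => h3 (Subtype.ext h)))
    (Fintype.card (Orb (P.a s) (P.a t))) (inf_bound P.a s t) (quot_bound P.a P.inv s t) i
  have h5 : Fintype.card L ≤ Fintype.card V := Fintype.card_subtype_le _
  calc (N + 1) * beta (G.induce L) (fun u : L => pull F P.a (u : V)) Set.univ ∅ i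
      ≤ (N + 1) * (2 ^ (Fintype.card L + 1) * Fintype.card (Orb (P.a s) (P.a t))) := Nat.mul_le_mul_left _ h4
    _ = 2 ^ (Fintype.card L + 1) * ((N + 1) * Fintype.card (Orb (P.a s) (P.a t))) := by ring
    _ ≤ 2 ^ (Fintype.card V + 1) * Fintype.card Y :=
        Nat.mul_le_mul (Nat.pow_le_pow_right (by norm_num) (by omega)) hO

/-- **P2G.** -/
theorem main : Pool.Agent.N496.LT.P2G := by
  classical
  intro V F _ _ _ G A hA ε h2 hε
  obtain ⟨N, hN⟩ := exists_nat_gt ((Fintype.card V : ℝ) * 2 ^ (Fintype.card V + 1) / ε)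
  let E : Finset (W G) := ((Finset.univ : Finset (V × V × Fin (N + 1))).filter
    (fun x => x.1 ≠ x.2.1 ∧ ¬ G.Adj x.1 x.2.1 ∧ 1 ≤ (x.2.2 : ℕ))).image
    (fun x => ((cox G).simple x.1 * (cox G).simple x.2.1) ^ (x.2.2 : ℕ))
  refine ⟨E, ?_, ?_⟩
  · intro h
    obtain ⟨x, hx, hx1⟩ := Finset.mem_image.1 h
    obtain ⟨-, h3, h4, h5⟩ := Finset.mem_filter.1 hx
    exact st_pow_ne G _ _ h3 h4 _ h5 hx1
  · intro Y _ P i
    set δ : ℝ := 2 ^ (Fintype.card V + 1) / (N + 1) * Fintype.card Y with hδ
    have hδ0 : 0 ≤ δ := by positivity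
    have hNpos : (0 : ℝ) < N + 1 := by positivity
    -- one step
    have step : ∀ (X : Set V) (m : V), A ⊆ X → m ∉ X → ∀ i,
        (beta G (pull F P.a) (X ∩ G.neighborSet m) (insert m ∅) i : ℝ) ≤ δ := by
      intro X m hX hm i
      obtain ⟨s, hs, t, ht, h3, h4, h5, h6, h7⟩ := hA m (fun h => hm (hX h))
      have b1 := eig V F (Y → F) G (pull F P.a) (X ∩ G.neighborSet m) ∅ m h2
        (fun m => by funext x; rw [pull_apply, pull_apply, P.inv])
        (fun u hu m' => by
          have hu' : G.Adj u m := by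
            rcases hu with hu | hu
            · exact ((G.mem_neighborSet m u).1 hu.2).symm
            · exact absurd hu (by simp)
          funext x
          rw [pull_apply, pull_apply, pull_apply, pull_apply, P.comm m u hu'.symm]) i
      have b2 := link_bound h2 G N E P (X ∩ G.neighborSet m) s t ⟨hX hs, h5⟩ ⟨hX ht, h6⟩ h3 h4
        (fun u hu h8 h9 => h7 u hu.2 h8 h9) (fun k hk hk' => Finset.mem_image.2 ⟨(s, t, ⟨k, by omega⟩),
          Finset.mem_filter.2 ⟨Finset.mem_univ _, h3, h4, hk⟩, rfl⟩) i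
      have b3 : ((N + 1 : ℕ) : ℝ) * (beta G (pull F P.a) (X ∩ G.neighborSet m) ∅ i : ℝ) ≤
          2 ^ (Fintype.card V + 1) * Fintype.card Y := by exact_mod_cast b2
      have b4 : (beta G (pull F P.a) (X ∩ G.neighborSet m) (insert m ∅) i : ℝ) ≤
          beta G (pull F P.a) (X ∩ G.neighborSet m) ∅ i := by exact_mod_cast b1
      refine b4.trans ?_
      rw [hδ, div_mul_eq_mul_div, le_div_iff₀ hNpos, mul_comm]
      exact_mod_cast b3
    have main : ∀ B : Finset V, (∀ m ∈ B, m ∉ A) → ∀ i,
        |(beta G (pull F P.a) (A ∪ B) ∅ i : ℝ) - beta G (pull F P.a) A ∅ i| ≤ B.card * δ := by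
      intro B
      induction B using Finset.induction_on with
      | empty => intro _ i; simp
      | insert m B hm ih =>
        intro hB i
        have h3 := ih (fun x hx => hB x (Finset.mem_insert_of_mem hx)) i
        have h4 : A ∪ ((insert m B : Finset V) : Set V) = insert m (A ∪ B) := by
          rw [Finset.coe_insert, Set.union_insert]
        have hmX : m ∉ A ∪ (B : Set V) := by
          rintro (h | h)
          · exact hB m (Finset.mem_insert_self _ _) h
          · exact hm h
        rw [h4, Finset.card_insert_of_notMem hm]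
        have h5 := step (A ∪ B) m Set.subset_union_left hmX
        have h6 := vert V F (Y → F) G (pull F P.a) (A ∪ B) ∅ m hmX (by simp)
        have h7 := Pool.Agent.R781.VS.vdel G (pull F P.a) (A ∪ B) ∅ m hmX i
        have h7' : (beta G (pull F P.a) (A ∪ B) ∅ i : ℝ) ≤ beta G (pull F P.a) (insert m (A ∪ B)) ∅ i + δ := by
          have h8 : (beta G (pull F P.a) (A ∪ B) ∅ i : ℝ) ≤ beta G (pull F P.a) (insert m (A ∪ B)) ∅ i +
            beta G (pull F P.a) ((A ∪ B) ∩ G.neighborSet m) (insert m ∅) i := by exact_mod_cast h7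
          linarith [h5 i]
        have h6' : (beta G (pull F P.a) (insert m (A ∪ B)) ∅ i : ℝ) ≤ beta G (pull F P.a) (A ∪ B) ∅ i + δ := by
          cases i with
          | zero =>
            have h8 : (beta G (pull F P.a) (insert m (A ∪ B)) ∅ 0 : ℝ) ≤ beta G (pull F P.a) (A ∪ B) ∅ 0 := by
              exact_mod_cast h6.1
            linarith
          | succ i =>
            have h8 : (beta G (pull F P.a) (insert m (A ∪ B)) ∅ (i + 1) : ℝ) ≤ beta G (pull F P.a) (A ∪ B) ∅ (i + 1) +
                beta G (pull F P.a) ((A ∪ B) ∩ G.neighborSet m) (insert m ∅) i := by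
              exact_mod_cast h6.2 i
            linarith [h5 i]
        rw [abs_le] at h3 ⊢
        push_cast
        constructor <;> nlinarith [h3.1, h3.2]
    have h3 := main (Finset.univ.filter (fun m => m ∉ A)) (fun m hm => (Finset.mem_filter.1 hm).2) i
    have h4 : A ∪ ((Finset.univ.filter (fun m => m ∉ A) : Finset V) : Set V) = Set.univ := by
      ext x
      simp [em]
    rw [h4] at h3
    refine h3.trans ?_
    have h5 : ((Finset.univ.filter (fun m => m ∉ A) : Finset V).card : ℝ) ≤ Fintype.card V := by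
      exact_mod_cast Finset.card_le_univ _
    refine (mul_le_mul_of_nonneg_right h5 hδ0).trans ?_
    rw [hδ, ← mul_assoc]
    refine mul_le_mul_of_nonneg_right ?_ (Nat.cast_nonneg _)
    rw [mul_div_assoc', div_le_iff₀ hNpos]
    rw [div_lt_iff₀ hε] at hN
    nlinarith

end Run7.h642.LT.P2G
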