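import Pool.Agent.N496.LT.Stm
import Pool.Agent.W907.SG.All

/-!
# Project LT (helper636), piece P4R: residual finiteness
-/

set_option autoImplicit false

namespace Run7.h642.LT.P4R

open Pool.Agent.W907.SG Pool.Agent.N496.LT
open Pool.Agent.W461.SGN (th)

/-- a right action gives a homomorphism to the permutations -/
def permHom {G Y : Type} [Group G] (ev : Y → G → Y) (h1 : ∀ y, ev y 1 = y)
    (h2 : ∀ y g h, ev y (g * h) = ev (ev y g) h) : G →* Equiv.Perm Y where
  toFun g :=
    { toFun := fun y => ev y g⁻¹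
      invFun := fun y => ev y g
      left_inv := fun y => by
        show ev (ev y g⁻¹) g = y
        rw [← h2, inv_mul_cancel, h1]
      right_inv := fun y => by
        show ev (ev y g) g⁻¹ = y
        rw [← h2, mul_inv_cancel, h1] }
  map_one' := by
    ext y
    show ev y (1 : G)⁻¹ = y
    rw [inv_one, h1]
  map_mul' g h := by
    ext y
    show ev y (g * h)⁻¹ = ev (ev y h⁻¹) g⁻¹
    rw [mul_inv_rev, h2]

theorem permHom_apply {G Y : Type} [Group G] (ev : Y → G → Y) (h1 : ∀ y, ev y 1 = y)
    (h2 : ∀ y g h, ev y (g * h) = ev (ev y g) h) (g : G) (y : Y) : permHom ev h1 h2 g y = ev y g⁻¹ := rfl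

/-- a countable group in which the nontrivial elements are detected by finite quotients -/
theorem resFin_of (Γ : Type) [Group Γ] [Countable Γ]
    (h : ∀ g : Γ, g ≠ 1 → ∃ K : Subgroup Γ, K.Normal ∧ K.FiniteIndex ∧ g ∉ K) : ResFin Γ := by
  classical
  choose! K hn hf hg using h
  obtain ⟨e, he⟩ := exists_surjective_nat Γ
  let L : ℕ → Subgroup Γ := fun j => if e j = 1 then ⊤ else K (e j)
  have hLn : ∀ j, (L j).Normal := by
    intro j
    by_cases h : e j = 1
    · simp only [L, if_pos h]; infer_instance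
    · simp only [L, if_neg h]; exact hn _ h
  have hLf : ∀ j, (L j).FiniteIndex := by
    intro j
    by_cases h : e j = 1
    · simp only [L, if_pos h]; infer_instance
    · simp only [L, if_neg h]; exact hf _ h
  refine ⟨fun i => ⨅ j : Fin (i + 1), L j, fun i => Subgroup.normal_iInf_normal fun j => hLn j, fun i => ?_, ?_, ?_⟩
  · have := hLf
    exact Subgroup.finiteIndex_iInf fun j => hLf j
  · intro i j hij
    refine le_iInf fun k => ?_
    exact iInf_le (fun k : Fin (j + 1) => L k) ⟨k, by omega⟩
  · rw [eq_bot_iff]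
    intro x hx
    rw [Subgroup.mem_bot]
    by_contra h1
    obtain ⟨j, hj⟩ := he x
    rw [Subgroup.mem_iInf] at hx
    have h2 := hx j
    rw [Subgroup.mem_iInf] at h2
    have h3 := h2 ⟨j, by omega⟩
    have h4 : x ∈ L j := h3
    simp only [L, hj, if_neg h1] at h4
    exact hg x h1 h4

/-- **P4R.** -/
theorem main : Pool.Agent.N496.LT.P4R := by
  intro V _ G
  have : Countable (W G) := by
    have : Countable (List V) := inferInstance
    exact (cox G).toCoxeterSystem.wordProd_surjective.countable
  refine resFin_of (th G).ker fun g hg => ?_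
  have : Fact (Nat.Prime 3) := ⟨Nat.prime_three⟩
  obtain ⟨Y, _, ⟨y0⟩, P, ev, e1, e2, -, e4⟩ := nilp 3 V G {(g : W G)} (by decide) (by
    rw [Finset.mem_singleton]
    intro h
    exact hg (Subtype.ext h.symm))
  refine ⟨((permHom ev e1 e2).comp (th G).ker.subtype).ker, inferInstance, inferInstance, ?_⟩
  intro h
  rw [MonoidHom.mem_ker] at h
  have h1 := congrArg (fun φ : Equiv.Perm Y => φ (ev y0 g)) h
  have h2 : ev (ev y0 g) (g : W G)⁻¹ = ev y0 g := h1
  rw [← e2, mul_inv_cancel, e1] at h2
  exact e4 _ (Finset.mem_singleton_self _) y0 h2.symm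

end Run7.h642.LT.P4R
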